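import Pool.Agent.Helper19.RD.Stmts9
import Pool.Agent.Helper19.RD.PL

/-! Project RD, row VLB. -/

set_option autoImplicit false

namespace Pool.Agent.Helper45.RD8

open Finset Pool.Agent.Helper18.RD Pool.Agent.Helper19.RD

/-- sums of `1 / p` over a sparse set -/
theorem tail_sum (B : Finset ℕ) (z : ℕ) (M : ℝ) (hz : 1 ≤ z) (hM : 0 ≤ M) (hB : ∀ p ∈ B, z < p) :
    ∀ y : ℕ, z ≤ y → (∀ u : ℕ, z ≤ u → u ≤ y → ((B.filter (fun p => p ≤ u)).card : ℝ) ^ 2 ≤ M * u) →
    ∑ p ∈ B.filter (fun p => p ≤ y), (1 : ℝ) / p ≤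
      ((B.filter (fun p => p ≤ y)).card : ℝ) / (y + 1) +
        2 * Real.sqrt M * (1 / Real.sqrt z - 1 / Real.sqrt y) := by
  intro y hy
  induction y, hy using Nat.le_induction with
  | base =>
    intro _
    have h1 : B.filter (fun p => p ≤ z) = ∅ := by
      rw [filter_eq_empty_iff]
      intro p hp
      have := hB p hp
      omega
    rw [h1]
    simp
  | succ y hy ih =>
    intro hcnt
    have ih' := ih (fun u h1 h2 => hcnt u h1 (by omega))
    have hy0 : (0 : ℝ) < y := by exact_mod_cast (by omega : 0 < y)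
    have hc := hcnt (y + 1) (by omega) le_rfl
    obtain ⟨n, hn⟩ : ∃ n : ℝ, n = ((B.filter (fun p => p ≤ y + 1)).card : ℝ) := ⟨_, rfl⟩
    rw [← hn] at hc ⊢
    have hn0 : 0 ≤ n := by rw [hn]; positivity
    -- the step
    have hstep : ∑ p ∈ B.filter (fun p => p ≤ y + 1), (1 : ℝ) / p ≤
        n / (y + 1) + 2 * Real.sqrt M * (1 / Real.sqrt z - 1 / Real.sqrt y) := by
      by_cases hmem : y + 1 ∈ B
      · have h1 : B.filter (fun p => p ≤ y + 1) = insert (y + 1) (B.filter (fun p => p ≤ y)) := by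
          ext p
          simp only [mem_filter, mem_insert]
          constructor
          · rintro ⟨a, b⟩
            by_cases hp : p = y + 1
            · exact Or.inl hp
            · exact Or.inr ⟨a, by omega⟩
          · rintro (rfl | ⟨a, b⟩)
            · exact ⟨hmem, le_rfl⟩
            · exact ⟨a, by omega⟩
        have h2 : y + 1 ∉ B.filter (fun p => p ≤ y) := by
          simp only [mem_filter, not_and]
          intro _
          omega
        have h3 : n = ((B.filter (fun p => p ≤ y)).card : ℝ) + 1 := by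
          rw [hn, h1, card_insert_of_notMem h2]
          push_cast; ring
        rw [h1, sum_insert h2, h3]
        push_cast
        have h4 : (((B.filter (fun p => p ≤ y)).card : ℝ) + 1) / ((y : ℝ) + 1) =
            ((B.filter (fun p => p ≤ y)).card : ℝ) / ((y : ℝ) + 1) + 1 / ((y : ℝ) + 1) := by
          rw [add_div]
        rw [h4]
        linarith
      · have h1 : B.filter (fun p => p ≤ y + 1) = B.filter (fun p => p ≤ y) := by
          ext p
          simp only [mem_filter]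
          constructor
          · rintro ⟨a, b⟩
            refine ⟨a, ?_⟩
            by_contra hp
            have : p = y + 1 := by omega
            exact hmem (this ▸ a)
          · rintro ⟨a, b⟩
            exact ⟨a, by omega⟩
        rw [hn, h1]
        exact ih'
    refine hstep.trans ?_
    -- numbers
    obtain ⟨s, hs⟩ : ∃ s : ℝ, s = Real.sqrt y := ⟨_, rfl⟩
    obtain ⟨r, hr⟩ : ∃ r : ℝ, r = Real.sqrt ((y : ℝ) + 1) := ⟨_, rfl⟩
    obtain ⟨m, hm⟩ : ∃ m : ℝ, m = Real.sqrt M := ⟨_, rfl⟩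
    have hs0 : 0 < s := by rw [hs]; exact Real.sqrt_pos.2 hy0
    have hr0 : 0 < r := by rw [hr]; exact Real.sqrt_pos.2 (by linarith)
    have hm0 : 0 ≤ m := by rw [hm]; exact Real.sqrt_nonneg _
    have hss : s ^ 2 = y := by rw [hs]; exact Real.sq_sqrt hy0.le
    have hrr : r ^ 2 = (y : ℝ) + 1 := by rw [hr]; exact Real.sq_sqrt (by linarith)
    have hmm : m ^ 2 = M := by rw [hm]; exact Real.sq_sqrt hM
    have hsr : s ≤ r := by
      rw [hs, hr]; exact Real.sqrt_le_sqrt (by linarith)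
    have hnm : n ≤ m * r := by
      have h1 : n ^ 2 ≤ (m * r) ^ 2 := by
        rw [mul_pow, hmm, hrr]
        push_cast at hc
        exact hc
      exact (pow_le_pow_iff_left₀ hn0 (by positivity) (by norm_num)).1 h1
    push_cast
    rw [← hs, ← hr, ← hm]
    have h2 : n / ((y : ℝ) + 1) ≤ n / ((y : ℝ) + 1 + 1) + m * (2 / s - 2 / r) := by
      have h3 : n / ((y : ℝ) + 1) - n / ((y : ℝ) + 1 + 1) =
          n / (((y : ℝ) + 1) * ((y : ℝ) + 1 + 1)) := by
        field_simp
        ring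
      have h4 : n / (((y : ℝ) + 1) * ((y : ℝ) + 1 + 1)) ≤ m / r ^ 3 := by
        rw [div_le_div_iff₀ (by positivity) (by positivity)]
        calc n * r ^ 3 ≤ (m * r) * r ^ 3 := by gcongr
          _ = m * (r ^ 2 * r ^ 2) := by ring
          _ ≤ m * (((y : ℝ) + 1) * ((y : ℝ) + 1 + 1)) := by
            rw [hrr]
            gcongr
            linarith
      have h5 : 1 / r ^ 3 ≤ 2 / s - 2 / r := by
        have h6 : 2 / s - 2 / r = 2 * (r - s) / (s * r) := by
          field_simp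
        rw [h6, div_le_div_iff₀ (by positivity) (by positivity)]
        -- s r ≤ 2 (r - s) r^3
        have h7 : (r - s) * (r + s) = 1 := by nlinarith
        have h8 : 0 ≤ r - s := by linarith
        have h9 : 1 ≤ 2 * r * (r - s) := by nlinarith
        have h10 : s * r ≤ r ^ 2 := by nlinarith
        calc 1 * (s * r) ≤ 1 * r ^ 2 := by linarith
          _ ≤ (2 * r * (r - s)) * r ^ 2 := by gcongr
          _ = 2 * (r - s) * r ^ 3 := by ring
      have h11 : m / r ^ 3 ≤ m * (2 / s - 2 / r) := by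
        calc m / r ^ 3 = m * (1 / r ^ 3) := by ring
          _ ≤ _ := mul_le_mul_of_nonneg_left h5 hm0
      linarith
    have h3 : 2 * m * (1 / Real.sqrt z - 1 / s) + m * (2 / s - 2 / r) =
        2 * m * (1 / Real.sqrt z - 1 / r) := by ring
    linarith

theorem st_VLB (hNPB : ST_NPB) (hPAR : ST_PAR) : ST_VLB := by
  classical
  obtain ⟨C, κ, hC, hκ, hNP⟩ := hNPB
  intro ε hε
  obtain ⟨A, hA⟩ : ∃ A : ℝ, A = 1600 * C + 100 := ⟨_, rfl⟩
  obtain ⟨N0, h0⟩ := hPAR A (κ + 2) ε (by rw [hA]; positivity) (by linarith) hε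
  refine ⟨1 / 20, max N0 1, by norm_num, ?_⟩
  intro N q a hN hq hcop hbig
  obtain ⟨hN1, hK1, hz2, hAx, hzx, hzlog, _, _, _, hAz, _, _, hxN, hAN, _⟩ :=
    h0 N ((le_max_left _ _).trans hN)
  obtain ⟨z, hz⟩ : ∃ z : ℕ, z = zN N := ⟨_, rfl⟩
  obtain ⟨x, hx⟩ : ∃ x : ℕ, x = xN N := ⟨_, rfl⟩
  rw [← hz] at hz2 hzx hzlog hAz
  rw [← hx] at hAx hzx hzlog hxN
  have hUN : UN N q = (OP q).filter (fun p => z < p ∧ p ≤ x) := by rw [UN, ← hz, ← hx]
  rw [hUN, ← hz, ← hx]
  have hNr : (1 : ℝ) ≤ N := by exact_mod_cast hN1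
  have hN0 : (0 : ℝ) < N := by linarith
  have hlogN : 0 ≤ Real.log (N : ℝ) := Real.log_nonneg hNr
  obtain ⟨L, hL⟩ : ∃ L : ℝ, L = 1 + Real.log N := ⟨_, rfl⟩
  have hL1 : 1 ≤ L := by rw [hL]; linarith
  rw [← hL] at hAz hAN
  rw [← hL]
  have hL0 : 0 < L := by linarith
  have hLκ : 1 ≤ L ^ κ := Real.one_le_rpow hL1 hκ.le
  have hLκ2 : L ^ (κ + 2) = L ^ κ * L ^ 2 := by
    rw [Real.rpow_add hL0]
    congr 1
    exact_mod_cast Real.rpow_natCast L 2
  rw [hLκ2] at hAz hAN
  have hL2 : 1 ≤ L ^ 2 := one_le_pow₀ hL1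
  obtain ⟨M, hM⟩ : ∃ M : ℝ, M = C * L ^ κ := ⟨_, rfl⟩
  have hM0 : 0 < M := by rw [hM]; positivity
  have hzr : (2 : ℝ) ≤ z := by exact_mod_cast hz2
  have hz0 : (0 : ℝ) < z := by linarith
  obtain ⟨w, hw⟩ : ∃ w : ℝ, w = (z : ℝ) ^ (1 / 4 : ℝ) := ⟨_, rfl⟩
  have hw0 : 0 < w := by rw [hw]; positivity
  have hw4 : w ^ 4 = z := by
    rw [hw, ← Real.rpow_natCast, ← Real.rpow_mul hz0.le]
    norm_num
  rw [← hw] at hAz
  have hb : 1600 * M * L ^ 2 ≤ w := by
    refine le_trans ?_ hAz
    rw [hM, hA]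
    have : 0 ≤ L ^ κ * L ^ 2 := by positivity
    nlinarith
  have hc : 100 * L ≤ w := by
    refine le_trans ?_ hAz
    rw [hA]
    have h1 : L ≤ L ^ κ * L ^ 2 := by
      calc L = 1 * (L * 1) := by ring
        _ ≤ L ^ κ * (L * L) := by gcongr
        _ = _ := by ring
    have h2 : (100 : ℝ) ≤ 1600 * C + 100 := by linarith
    calc 100 * L ≤ (1600 * C + 100) * (L ^ κ * L ^ 2) := by gcongr
      _ = _ := by ring
  have hw100 : 100 ≤ w := by linarith
  -- the hypothesis of NPB
  have hcount : ∀ y : ℕ, 1 ≤ y → y ≤ x → ((NP q y).card : ℝ) ^ 2 ≤ M * y := by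
    intro y hy1 hyx
    have h1 := hNP N q a y hN1 hq hy1 hcop
    rw [← hL, ← hM] at h1
    apply h1
    refine le_trans ?_ hbig
    have hsq : Real.sqrt N = (N : ℝ) ^ (1 / 2 : ℝ) := Real.sqrt_eq_rpow _
    have h2 : (y : ℝ) ≤ (N : ℝ) ^ (1 / 2 : ℝ) := by
      calc (y : ℝ) ≤ x := by exact_mod_cast hyx
        _ ≤ (N : ℝ) ^ (1 / 10 : ℝ) := hxN
        _ ≤ (N : ℝ) ^ (1 / 2 : ℝ) := Real.rpow_le_rpow_of_exponent_le hNr (by norm_num)
    have h3 : 2 * M ≤ (N : ℝ) ^ ε := by
      refine le_trans ?_ hAN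
      rw [hM, hA]
      have h4 : 0 ≤ C * L ^ κ := by positivity
      have h5 : L ^ κ ≤ L ^ κ * L ^ 2 := le_mul_of_one_le_right (by positivity) hL2
      nlinarith
    calc M * (Real.sqrt N + y) ≤ M * ((N : ℝ) ^ (1 / 2 : ℝ) + (N : ℝ) ^ (1 / 2 : ℝ)) := by
          rw [hsq]; gcongr
      _ = (2 * M) * (N : ℝ) ^ (1 / 2 : ℝ) := by ring
      _ ≤ (N : ℝ) ^ ε * (N : ℝ) ^ (1 / 2 : ℝ) := by gcongr
      _ = (N : ℝ) ^ (1 / 2 + ε) := by rw [← Real.rpow_add hN0]; ring_nf
  have hx1 : 1 ≤ x := by omega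
  have hxz : (z : ℝ) ^ 2 ≤ x := by
    have hlz : 1 ≤ Real.log z := by
      rw [Real.le_log_iff_exp_le hz0]
      have h1 := Real.exp_one_lt_d9
      have h2 : (100 : ℝ) ^ 4 ≤ w ^ 4 := by gcongr
      rw [hw4] at h2
      linarith
    have hx0 : (0 : ℝ) < x := by exact_mod_cast hx1
    rw [← Real.log_le_log_iff (by positivity) hx0, Real.log_pow]
    push_cast
    nlinarith
  have hx0 : (0 : ℝ) < x := by exact_mod_cast hx1
  have hwx : w ≤ x := by
    have h1 : w ≤ w ^ 4 := le_self_pow₀ (by linarith) (by norm_num)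
    rw [hw4] at h1
    nlinarith
  have hxleN : (x : ℝ) ≤ N := by
    refine hxN.trans ?_
    calc (N : ℝ) ^ (1 / 10 : ℝ) ≤ (N : ℝ) ^ (1 : ℝ) :=
          Real.rpow_le_rpow_of_exponent_le hNr (by norm_num)
      _ = N := Real.rpow_one _
  have hlogx : Real.log x ≤ L := by
    have := Real.log_le_log hx0 hxleN
    rw [hL]; linarith
  have hx3 : 3 ≤ x := by
    have : (3 : ℝ) ≤ x := by linarith
    exact_mod_cast this
  have hlogx0 : 0 < Real.log x := Real.log_pos (by exact_mod_cast (by omega : 1 < x))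
  refine ⟨?_, ?_, ?_⟩
  · -- lower bound
    have h1 := pl_pi x hx3
    have h2 := pl_cover q x hq
    have h3 : (PP q x).card ≤ ((OP q).filter (fun p => z < p ∧ p ≤ x)).card + z := by
      have h4 : PP q x ⊆ (OP q).filter (fun p => z < p ∧ p ≤ x) ∪ Icc 1 z := by
        intro p hp
        rw [PP, mem_filter] at hp
        rw [mem_union, mem_filter, mem_Icc]
        by_cases hpz : z < p
        · exact Or.inl ⟨hp.1, hpz, hp.2⟩
        · right
          have : p.Prime := by
            have h5 := hp.1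
            rw [OP, mem_erase] at h5
            exact Nat.prime_of_mem_primeFactors h5.2
          exact ⟨this.one_lt.le, by omega⟩
      refine (card_le_card h4).trans ((card_union_le _ _).trans ?_)
      rw [Nat.card_Icc]; omega
    obtain ⟨n, hn⟩ : ∃ n : ℝ, n = (((OP q).filter (fun p => z < p ∧ p ≤ x)).card : ℝ) := ⟨_, rfl⟩
    have h5 : (Nat.primeCounting x : ℝ) ≤ 1 + (n + z) + (NP q x).card := by
      rw [hn]
      have h6 : Nat.primeCounting x ≤ 1 + (((OP q).filter (fun p => z < p ∧ p ≤ x)).card + z) +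
          (NP q x).card := by
        refine h2.trans ?_
        have : (NP q x).card =
            ((Icc 1 x).filter (fun p => p.Prime ∧ p ≠ 2 ∧ ¬ p ∣ q)).card := rfl
        omega
      exact_mod_cast h6
    have h6 : ((NP q x).card : ℝ) ≤ x / (40 * L) := by
      have h7 := hcount x hx1 le_rfl
      have h8 : M * x ≤ (x / (40 * L)) ^ 2 := by
        rw [div_pow, le_div_iff₀ (by positivity)]
        calc M * (x : ℝ) * (40 * L) ^ 2 = (1600 * M * L ^ 2) * (x : ℝ) := by ring
          _ ≤ (x : ℝ) * (x : ℝ) := mul_le_mul_of_nonneg_right (hb.trans hwx) hx0.le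
          _ = (x : ℝ) ^ 2 := by ring
      exact (pow_le_pow_iff_left₀ (by positivity) (by positivity) (by norm_num)).1 (h7.trans h8)
    have h7 : 1 + (z : ℝ) ≤ x / (40 * L) := by
      rw [le_div_iff₀ (by positivity)]
      have h8 : (1 + (z : ℝ)) * (40 * L) ≤ (z * z : ℝ) := by
        have h9 : 1 + (z : ℝ) ≤ 2 * z := by linarith
        have h10 : 2 * (40 * L) ≤ z := by
          have h11 : w ≤ w ^ 4 := le_self_pow₀ (by linarith) (by norm_num)
          rw [hw4] at h11
          linarith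
        calc (1 + (z : ℝ)) * (40 * L) ≤ (2 * z) * (40 * L) := by gcongr
          _ = z * (2 * (40 * L)) := by ring
          _ ≤ z * z := by gcongr
      nlinarith
    have h8 : (x : ℝ) / (10 * L) ≤ Nat.primeCounting x := by
      refine le_trans ?_ h1
      apply div_le_div_of_nonneg_left hx0.le (by positivity)
      linarith
    have h9 : (x : ℝ) / (20 * L) ≤ n := by
      have e1 : (x : ℝ) / (10 * L) = 4 * (x / (40 * L)) := by field_simp; norm_num
      have e2 : (x : ℝ) / (20 * L) = 2 * (x / (40 * L)) := by field_simp; norm_num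
      rw [e1] at h8
      rw [e2]
      linarith
    have h10 : n / x ≤ VV ((OP q).filter (fun p => z < p ∧ p ≤ x)) := by
      rw [VV, hn]
      calc (((OP q).filter (fun p => z < p ∧ p ≤ x)).card : ℝ) / x
          = ∑ _p ∈ (OP q).filter (fun p => z < p ∧ p ≤ x), (1 : ℝ) / x := by
            rw [sum_const, nsmul_eq_mul]; ring
        _ ≤ ∑ p ∈ (OP q).filter (fun p => z < p ∧ p ≤ x), (1 : ℝ) / p := by
            apply sum_le_sum
            intro p hp
            rw [mem_filter] at hp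
            have hp0 : (0 : ℝ) < p := by exact_mod_cast (by omega : 0 < p)
            apply one_div_le_one_div_of_le hp0
            exact_mod_cast hp.2.2
    refine le_trans ?_ h10
    rw [div_le_div_iff₀ hL0 hx0]
    rw [div_le_iff₀ (by positivity)] at h9
    linarith
  · -- upper bound
    rw [VV]
    have h1 : ∑ p ∈ (OP q).filter (fun p => z < p ∧ p ≤ x), (1 : ℝ) / p ≤
        ∑ n ∈ Icc 1 x, (1 : ℝ) / n := by
      apply sum_le_sum_of_subset_of_nonneg
      · intro p hp
        rw [mem_filter] at hp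
        rw [mem_Icc]
        exact ⟨by omega, hp.2.2⟩
      · intro n _ _; positivity
    have h2 : ∑ n ∈ Icc 1 x, (1 : ℝ) / n ≤ 1 + Real.log x := by
      have h3 := harmonic_le_one_add_log x
      have h4 : ((harmonic x : ℚ) : ℝ) = ∑ n ∈ Icc 1 x, (1 : ℝ) / n := by
        rw [harmonic_eq_sum_Icc]
        push_cast
        simp
      rw [h4] at h3
      exact h3
    have h3 := Real.log_le_log hx0 hxleN
    rw [hL]
    linarith
  · -- primes not dividing q
    obtain ⟨B, hB⟩ : ∃ B : Finset ℕ,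
      B = (Icc (z + 1) x).filter (fun p => p.Prime ∧ ¬ p ∣ q) := ⟨_, rfl⟩
    rw [← hB]
    have hBz : ∀ p ∈ B, z < p := by
      intro p hp
      rw [hB, mem_filter, mem_Icc] at hp
      omega
    have hcnt : ∀ u : ℕ, z ≤ u → u ≤ x →
        ((B.filter (fun p => p ≤ u)).card : ℝ) ^ 2 ≤ M * u := by
      intro u hu1 hu2
      refine le_trans ?_ (hcount u (by omega) hu2)
      apply pow_le_pow_left₀ (by positivity)
      have h1 : B.filter (fun p => p ≤ u) ⊆ NP q u := by
        intro p hp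
        rw [mem_filter, hB, mem_filter, mem_Icc] at hp
        rw [NP, mem_filter, mem_Icc]
        exact ⟨⟨by omega, hp.2⟩, hp.1.2.1, by omega, hp.1.2.2⟩
      exact_mod_cast card_le_card h1
    have h1 := tail_sum B z M (by omega) hM0.le hBz x hzx hcnt
    have h2 : B.filter (fun p => p ≤ x) = B := by
      rw [filter_eq_self]
      intro p hp
      rw [hB, mem_filter, mem_Icc] at hp
      exact hp.1.2
    have h3 := hcnt x hzx le_rfl
    rw [h2] at h1 h3
    refine h1.trans ?_
    obtain ⟨m, hm⟩ : ∃ m : ℝ, m = Real.sqrt M := ⟨_, rfl⟩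
    obtain ⟨s, hs⟩ : ∃ s : ℝ, s = Real.sqrt z := ⟨_, rfl⟩
    obtain ⟨r, hr⟩ : ∃ r : ℝ, r = Real.sqrt x := ⟨_, rfl⟩
    rw [← hm, ← hs, ← hr]
    have hm0 : 0 ≤ m := by rw [hm]; exact Real.sqrt_nonneg _
    have hs0 : 0 < s := by rw [hs]; exact Real.sqrt_pos.2 hz0
    have hr0 : 0 < r := by rw [hr]; exact Real.sqrt_pos.2 hx0
    have hmm : m ^ 2 = M := by rw [hm]; exact Real.sq_sqrt hM0.le
    have hss : s ^ 2 = z := by rw [hs]; exact Real.sq_sqrt hz0.le
    have hrr : r ^ 2 = x := by rw [hr]; exact Real.sq_sqrt hx0.le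
    have hsr : s ≤ r := by
      rw [hs, hr]; exact Real.sqrt_le_sqrt (by exact_mod_cast hzx)
    have hws : s = w ^ 2 := by
      have h4 : s ^ 2 = (w ^ 2) ^ 2 := by rw [hss, ← hw4]; ring
      exact (pow_left_inj₀ hs0.le (by positivity) (by norm_num)).1 h4
    have h4 : (B.card : ℝ) ≤ m * r := by
      have h5 : (B.card : ℝ) ^ 2 ≤ (m * r) ^ 2 := by rw [mul_pow, hmm, hrr]; exact h3
      exact (pow_le_pow_iff_left₀ (by positivity) (by positivity) (by norm_num)).1 h5
    have h5 : (B.card : ℝ) / (x + 1) ≤ m / s := by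
      rw [div_le_div_iff₀ (by positivity) hs0]
      calc (B.card : ℝ) * s ≤ (m * r) * r := by gcongr
        _ = m * r ^ 2 := by ring
        _ ≤ m * (x + 1) := by rw [hrr]; gcongr; linarith
    have h6 : 2 * m * (1 / s - 1 / r) ≤ 2 * (m / s) := by
      have h7 : 0 ≤ 1 / r := by positivity
      have h8 : 2 * m * (1 / s - 1 / r) ≤ 2 * m * (1 / s) := by
        apply mul_le_mul_of_nonneg_left _ (by positivity)
        linarith
      calc 2 * m * (1 / s - 1 / r) ≤ 2 * m * (1 / s) := h8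
        _ = 2 * (m / s) := by ring
    have h7 : (z : ℝ) ^ (-(1 / 4) : ℝ) = 1 / w := by
      rw [Real.rpow_neg hz0.le, ← hw, one_div]
    rw [h7]
    have h8 : 3 * (m / s) ≤ 1 / w := by
      rw [hws]
      have h9 : 3 * m ≤ w := by
        have h10 : (3 * m) ^ 2 ≤ w ^ 2 := by
          rw [mul_pow, hmm]
          have h11 : M ≤ 1600 * M * L ^ 2 := by nlinarith
          nlinarith
        exact (pow_le_pow_iff_left₀ (by positivity) hw0.le (by norm_num)).1 h10
      rw [mul_div_assoc', div_le_div_iff₀ (by positivity) hw0]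
      calc 3 * m * w ≤ w * w := by gcongr
        _ = 1 * w ^ 2 := by ring
    linarith

end Pool.Agent.Helper45.RD8
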